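import Pool.Agent.H61.SC.Stmts
import Pool.Agent.H61.SC.Ex

/-!
# SC, row REF: reflection tiling
-/

namespace Pool.SC

open Finset

namespace RefAux

/-- a symmetry of the line on the vertices -/
def mv (s : Bool) (c x : ℤ) : ℤ := if s then x + c else c - x

/-- a symmetry of the line on the edges -/
def me (s : Bool) (c x : ℤ) : ℤ := if s then x + c else c - x - 1

/-- the offset of the inverse -/
def ci (s : Bool) (c : ℤ) : ℤ := if s then -c else c

theorem mv_ci (s : Bool) (c x : ℤ) : mv s (ci s c) (mv s c x) = x := by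
  cases s <;> simp [mv, ci]

theorem mv_ci' (s : Bool) (c x : ℤ) : mv s c (mv s (ci s c) x) = x := by
  cases s <;> simp [mv, ci]

theorem me_ci (s : Bool) (c x : ℤ) : me s (ci s c) (me s c x) = x := by
  cases s
  · simp [me, ci]; ring
  · simp [me, ci]

theorem me_ci' (s : Bool) (c x : ℤ) : me s c (me s (ci s c) x) = x := by
  cases s
  · simp [me, ci]; ring
  · simp [me, ci]

/-- a symmetry of the lattice on the vertices -/
def Vm (s : Bool) (c : ℤ) (t : Bool) (d : ℤ) (v : V) : V := (mv s c v.1, mv t d v.2.1, v.2.2)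

/-- a symmetry of the lattice on the edges -/
def Em (s : Bool) (c : ℤ) (t : Bool) (d : ℤ) (e : Ed) : Ed :=
  (e.1, (if e.1 = 0 then me s c e.2.1 else mv s c e.2.1,
    if e.1 = 1 then me t d e.2.2.1 else mv t d e.2.2.1, e.2.2.2))

def EE (s : Bool) (c : ℤ) (t : Bool) (d : ℤ) : Ed ≃ Ed where
  toFun := Em s c t d
  invFun := Em s (ci s c) t (ci t d)
  left_inv := by
    rintro ⟨k, x, y, h⟩
    fin_cases k <;> simp [Em, mv_ci, me_ci]
  right_inv := by
    rintro ⟨k, x, y, h⟩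
    fin_cases k <;> simp [Em, mv_ci', me_ci']

theorem ends (s : Bool) (c : ℤ) (t : Bool) (d : ℤ) (e : Ed) :
    (hd (EE s c t d e) = Vm s c t d (hd e) ∧ tl (EE s c t d e) = Vm s c t d (tl e)) ∨
    (hd (EE s c t d e) = Vm s c t d (tl e) ∧ tl (EE s c t d e) = Vm s c t d (hd e)) := by
  obtain ⟨k, x, y, h⟩ := e
  fin_cases k
  · cases s
    · right
      simp [EE, Em, hd, tl, Vm, unitv, mv, me]
      omega
    · left
      simp [EE, Em, hd, tl, Vm, unitv, mv, me]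
      omega
  · cases t
    · right
      simp [EE, Em, hd, tl, Vm, unitv, mv, me]
      omega
    · left
      simp [EE, Em, hd, tl, Vm, unitv, mv, me]
      omega
  · left
    simp [EE, Em, hd, tl, Vm, unitv, mv]

theorem cut_map (s : Bool) (c : ℤ) (t : Bool) (d : ℤ) (S : Set V) (e : Ed) :
    cutE S (EE s c t d e) ↔ cutE (Vm s c t d ⁻¹' S) e := by
  unfold cutE
  rcases ends s c t d e with ⟨h1, h2⟩ | ⟨h1, h2⟩
  · rw [h1, h2]; rfl
  · rw [h1, h2]
    simp only [Set.mem_preimage]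
    tauto

theorem mem_eds {R : Rect} {z1 z2 : ℤ} {e : Ed} :
    e ∈ eds R z1 z2 ↔ hd e ∈ box R z1 z2 ∧ tl e ∈ box R z1 z2 := by
  unfold eds
  rw [Finset.mem_filter, Finset.mem_product]
  simp [hd]

theorem eds_map {s : Bool} {c : ℤ} {t : Bool} {d : ℤ} {Q R : Rect} {z1 z2 : ℤ}
    (h : ∀ v, Vm s c t d v ∈ box Q z1 z2 ↔ v ∈ box R z1 z2) :
    eds Q z1 z2 = (eds R z1 z2).map (EE s c t d).toEmbedding := by
  ext e'
  obtain ⟨e, rfl⟩ := (EE s c t d).surjective e'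
  rw [Finset.mem_map_equiv, Equiv.symm_apply_apply, mem_eds, mem_eds]
  rcases ends s c t d e with ⟨h1, h2⟩ | ⟨h1, h2⟩
  · rw [h1, h2, h, h]
  · rw [h1, h2, h, h, and_comm]

theorem cuts_map {s : Bool} {c : ℤ} {t : Bool} {d : ℤ} {Q R : Rect} {z1 z2 : ℤ}
    (h : ∀ v, Vm s c t d v ∈ box Q z1 z2 ↔ v ∈ box R z1 z2) (S : Set V) :
    cuts Q z1 z2 S = (cuts R z1 z2 (Vm s c t d ⁻¹' S)).map (EE s c t d).toEmbedding := by
  classical
  ext e'
  obtain ⟨e, rfl⟩ := (EE s c t d).surjective e'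
  rw [Finset.mem_map_equiv, Equiv.symm_apply_apply]
  unfold cuts
  rw [Finset.mem_filter, Finset.mem_filter, eds_map h, Finset.mem_map_equiv,
    Equiv.symm_apply_apply, cut_map]

theorem en_map {s : Bool} {c : ℤ} {t : Bool} {d : ℤ} {Q R : Rect} {z1 z2 : ℤ}
    (h : ∀ v, Vm s c t d v ∈ box Q z1 z2 ↔ v ∈ box R z1 z2) (S : Set V) (a b : ℝ)
    (T : Finset Ed) :
    en a b T Q z1 z2 S =
      en a b (T.map (EE s c t d).symm.toEmbedding) R z1 z2 (Vm s c t d ⁻¹' S) := by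
  unfold en
  rw [cuts_map h, Finset.sum_map]
  refine Finset.sum_congr rfl fun e _ => ?_
  unfold cap
  have : e ∈ T.map (EE s c t d).symm.toEmbedding ↔ (EE s c t d).toEmbedding e ∈ T := by
    rw [Finset.mem_map_equiv]
    rfl
  by_cases h : e ∈ T.map (EE s c t d).symm.toEmbedding
  · rw [if_pos h, if_pos (this.1 h)]
  · rw [if_neg h, if_neg (fun h' => h (this.2 h'))]

theorem cuts_congr {R : Rect} {z1 z2 : ℤ} {S S' : Set V}
    (h : ∀ v ∈ box R z1 z2, v ∈ S ↔ v ∈ S') : cuts R z1 z2 S = cuts R z1 z2 S' := by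
  classical
  unfold cuts
  refine Finset.filter_congr fun e he => ?_
  rw [mem_eds] at he
  unfold cutE
  rw [h _ he.1, h _ he.2]

theorem en_congr {R : Rect} {z1 z2 : ℤ} {S S' : Set V}
    (h : ∀ v ∈ box R z1 z2, v ∈ S ↔ v ∈ S') (a b : ℝ) (T : Finset Ed) :
    en a b T R z1 z2 S = en a b T R z1 z2 S' := by
  unfold en
  rw [cuts_congr h]

theorem mem_box {R : Rect} {z1 z2 : ℤ} {v : V} :
    v ∈ box R z1 z2 ↔ (R.x ≤ v.1 ∧ v.1 < R.x + R.w) ∧ (R.y ≤ v.2.1 ∧ v.2.1 < R.y + R.l) ∧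
      (z1 ≤ v.2.2 ∧ v.2.2 ≤ z2) := by
  unfold box
  simp only [Finset.mem_product, Finset.mem_Ico, Finset.mem_Icc]

theorem mem_cols {R : Rect} {q : ℤ × ℤ} :
    q ∈ R.cols ↔ (R.x ≤ q.1 ∧ q.1 < R.x + R.w) ∧ (R.y ≤ q.2 ∧ q.2 < R.y + R.l) := by
  unfold Rect.cols
  simp only [Finset.mem_product, Finset.mem_Ico]

/-! ### The tiles -/

/-- the offset of the tile `i` -/
def oc (w x0 i : ℤ) : ℤ := if Even i then i * w - x0 else (i + 1) * w - 1 + x0

/-- folding -/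
def fo (w x0 x : ℤ) : ℤ :=
  if Even (x / w) then x - (x / w) * w + x0 else (x / w + 1) * w - 1 + x0 - x

theorem div_bounds {w : ℤ} (hw : 0 < w) (x : ℤ) : x / w * w ≤ x ∧ x < (x / w + 1) * w := by
  constructor
  · exact Int.ediv_mul_le x hw.ne'
  · have := Int.lt_ediv_add_one_mul_self x hw
    exact this

theorem fo_mem {w : ℤ} (hw : 0 < w) (x0 x : ℤ) : x0 ≤ fo w x0 x ∧ fo w x0 x < x0 + w := by
  obtain ⟨h1, h2⟩ := div_bounds hw x
  unfold fo
  rw [add_mul, one_mul] at h2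
  split_ifs
  · constructor <;> linarith
  · rw [add_mul, one_mul]
    constructor <;> linarith

theorem div_eq_of {w : ℤ} (hw : 0 < w) {x i : ℤ} (h1 : i * w ≤ x) (h2 : x < (i + 1) * w) :
    x / w = i := by
  obtain ⟨h3, h4⟩ := div_bounds hw x
  have h5 : i < x / w + 1 := by
    by_contra h
    have : (x / w + 1) * w ≤ i * w := mul_le_mul_of_nonneg_right (not_lt.1 h) hw.le
    linarith
  have h6 : x / w < i + 1 := by
    by_contra h
    have : (i + 1) * w ≤ x / w * w := mul_le_mul_of_nonneg_right (not_lt.1 h) hw.le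
    linarith
  omega

theorem fo_step {w : ℤ} (hw : 0 < w) (x0 x : ℤ) (h : x / w ≠ (x + 1) / w) :
    fo w x0 x = fo w x0 (x + 1) ∧ (fo w x0 x = x0 ∨ fo w x0 x = x0 + w - 1) := by
  obtain ⟨h1, h2⟩ := div_bounds hw x
  obtain ⟨h3, h4⟩ := div_bounds hw (x + 1)
  have h5 : x + 1 = (x / w + 1) * w := by
    by_contra hne
    apply h
    rw [div_eq_of hw (x := x + 1) (i := x / w) (by linarith) (by omega)]
  have h6 : (x + 1) / w = x / w + 1 := by
    rw [h5]
    exact Int.mul_ediv_cancel _ hw.ne'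
  have h7 : x = (x / w + 1) * w - 1 := by linarith
  unfold fo
  rw [h6]
  by_cases he : Even (x / w)
  · have ho : ¬ Even (x / w + 1) := by
      rw [Int.even_add_one]
      exact fun h => h he
    rw [if_pos he, if_neg ho]
    constructor
    · linear_combination 2 * h7
    · right
      linear_combination h7
  · have ho : Even (x / w + 1) := by
      rw [Int.even_add_one]
      exact he
    rw [if_neg he, if_pos ho]
    constructor
    · linear_combination (-2) * h7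
    · left
      linear_combination (-1) * h7

theorem tile (w x0 i x : ℤ) :
    (i * w ≤ mv (decide (Even i)) (oc w x0 i) x ∧
      mv (decide (Even i)) (oc w x0 i) x < i * w + w) ↔ (x0 ≤ x ∧ x < x0 + w) := by
  unfold mv oc
  by_cases he : Even i
  · simp only [he, decide_true, if_true]
    constructor <;> intro h <;> constructor <;> linarith [h.1, h.2]
  · simp only [he, decide_false, if_false, Bool.false_eq_true, add_mul, one_mul]
    constructor <;> intro h <;> constructor <;> linarith [h.1, h.2]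

theorem tile_div {w : ℤ} (hw : 0 < w) {x0 i x : ℤ} (h : x0 ≤ x ∧ x < x0 + w) :
    mv (decide (Even i)) (oc w x0 i) x / w = i := by
  have := (tile w x0 i x).2 h
  exact div_eq_of hw this.1 (by rw [add_mul, one_mul]; exact this.2)

theorem tile_fo {w : ℤ} (hw : 0 < w) {x0 i x : ℤ} (h : x0 ≤ x ∧ x < x0 + w) :
    fo w x0 (mv (decide (Even i)) (oc w x0 i) x) = x := by
  unfold fo
  rw [tile_div hw h]
  unfold mv oc
  by_cases he : Even i
  · simp only [he, decide_true, if_true]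
    ring
  · simp only [he, decide_false, if_false, Bool.false_eq_true]
    ring

/-- the tile `(i, j)` -/
def Qt (R : Rect) (i j : ℤ) : Rect := ⟨i * R.w, j * R.l, R.w, R.l⟩

/-- the map from `R` to the tile `(i, j)` -/
def Vt (R : Rect) (i j : ℤ) : V → V :=
  Vm (decide (Even i)) (oc R.w R.x i) (decide (Even j)) (oc R.l R.y j)

/-- the map from `R` to the tile `(i, j)` on the edges -/
def Et (R : Rect) (i j : ℤ) : Ed ≃ Ed :=
  EE (decide (Even i)) (oc R.w R.x i) (decide (Even j)) (oc R.l R.y j)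

/-- gluing -/
def glue (R : Rect) (Sij : ℤ → ℤ → Set V) : Set V :=
  {v | ((fo R.w R.x v.1, fo R.l R.y v.2.1, v.2.2) : V) ∈ Sij (v.1 / R.w) (v.2.1 / R.l)}

theorem tile_box (R : Rect) (i j z1 z2 : ℤ) (v : V) :
    Vt R i j v ∈ box (Qt R i j) z1 z2 ↔ v ∈ box R z1 z2 := by
  rw [mem_box, mem_box]
  unfold Vt Vm Qt
  simp only
  rw [tile, tile]

theorem glue_pre {R : Rect} (hw : 1 ≤ R.w) (hl : 1 ≤ R.l) {i j z1 z2 : ℤ} {v : V}
    (hv : v ∈ box R z1 z2) (Sij : ℤ → ℤ → Set V) :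
    v ∈ Vt R i j ⁻¹' (glue R Sij) ↔ v ∈ Sij i j := by
  rw [mem_box] at hv
  have hw' : (0 : ℤ) < R.w := by exact_mod_cast hw
  have hl' : (0 : ℤ) < R.l := by exact_mod_cast hl
  have h1 : fo R.w R.x (Vt R i j v).1 = v.1 := tile_fo hw' hv.1
  have h2 : fo R.l R.y (Vt R i j v).2.1 = v.2.1 := tile_fo hl' hv.2.1
  have h3 : (Vt R i j v).1 / (R.w : ℤ) = i := tile_div hw' hv.1
  have h4 : (Vt R i j v).2.1 / (R.l : ℤ) = j := tile_div hl' hv.2.1
  rw [Set.mem_preimage, glue, Set.mem_ofPred_eq, h1, h2, h3, h4]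
  rfl

theorem glue_adm {R : Rect} (hw : 1 ≤ R.w) (hl : 1 ≤ R.l) {z1 z2 : ℤ} {Sij : ℤ → ℤ → Set V}
    (h : ∀ i j, adm R z1 z2 (Sij i j)) (B : Rect) : adm B z1 z2 (glue R Sij) := by
  have hw' : (0 : ℤ) < R.w := by exact_mod_cast hw
  have hl' : (0 : ℤ) < R.l := by exact_mod_cast hl
  intro v _
  have := h (v.1 / R.w) (v.2.1 / R.l) (fo R.w R.x v.1, fo R.l R.y v.2.1, v.2.2)
    (mem_cols.2 ⟨fo_mem hw' _ _, fo_mem hl' _ _⟩)
  exact this

/-- The edges between two tiles are not cut. -/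
theorem glue_cut {R : Rect} (hw : 1 ≤ R.w) (hl : 1 ≤ R.l) {Tr : Set V} {Sij : ℤ → ℤ → Set V}
    (h : ∀ i j, trc R Tr (Sij i j)) {e : Ed} (he : cutE (glue R Sij) e) :
    (hd e).1 / (R.w : ℤ) = (tl e).1 / (R.w : ℤ) ∧
      (hd e).2.1 / (R.l : ℤ) = (tl e).2.1 / (R.l : ℤ) := by
  have hw' : (0 : ℤ) < R.w := by exact_mod_cast hw
  have hl' : (0 : ℤ) < R.l := by exact_mod_cast hl
  obtain ⟨k, x, y, z⟩ := e
  fin_cases k
  · have e1 : hd ((0 : Fin 3), (x, y, z)) = (x, y, z) := rfl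
    have e2 : tl ((0 : Fin 3), (x, y, z)) = (x + 1, y, z) := by
      simp [tl, unitv]
    change cutE (glue R Sij) ((0 : Fin 3), (x, y, z)) at he
    change (hd ((0 : Fin 3), (x, y, z))).1 / (R.w : ℤ) = (tl ((0 : Fin 3), (x, y, z))).1 / (R.w : ℤ) ∧
      (hd ((0 : Fin 3), (x, y, z))).2.1 / (R.l : ℤ) = (tl ((0 : Fin 3), (x, y, z))).2.1 / (R.l : ℤ)
    rw [e1, e2]
    refine ⟨?_, rfl⟩
    by_contra hne
    apply he
    rw [e1, e2]
    obtain ⟨h1, h2⟩ := fo_step hw' R.x x hne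
    have hbd : bd R (fo R.w R.x x, fo R.l R.y y) :=
      ⟨mem_cols.2 ⟨fo_mem hw' _ _, fo_mem hl' _ _⟩, by
        rcases h2 with h2 | h2
        · exact Or.inl h2
        · exact Or.inr (Or.inl h2)⟩
    have t1 := h (x / R.w) (y / R.l) (fo R.w R.x x, fo R.l R.y y, z) hbd
    have t2 := h ((x + 1) / R.w) (y / R.l) (fo R.w R.x x, fo R.l R.y y, z) hbd
    unfold glue
    simp only [Set.mem_ofPred_eq]
    rw [← h1, t1, t2]
  · have e1 : hd ((1 : Fin 3), (x, y, z)) = (x, y, z) := rfl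
    have e2 : tl ((1 : Fin 3), (x, y, z)) = (x, y + 1, z) := by
      simp [tl, unitv]
    change cutE (glue R Sij) ((1 : Fin 3), (x, y, z)) at he
    change (hd ((1 : Fin 3), (x, y, z))).1 / (R.w : ℤ) = (tl ((1 : Fin 3), (x, y, z))).1 / (R.w : ℤ) ∧
      (hd ((1 : Fin 3), (x, y, z))).2.1 / (R.l : ℤ) = (tl ((1 : Fin 3), (x, y, z))).2.1 / (R.l : ℤ)
    rw [e1, e2]
    refine ⟨rfl, ?_⟩
    by_contra hne
    apply he
    rw [e1, e2]
    obtain ⟨h1, h2⟩ := fo_step hl' R.y y hne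
    have hbd : bd R (fo R.w R.x x, fo R.l R.y y) :=
      ⟨mem_cols.2 ⟨fo_mem hw' _ _, fo_mem hl' _ _⟩, by
        rcases h2 with h2 | h2
        · exact Or.inr (Or.inr (Or.inl h2))
        · exact Or.inr (Or.inr (Or.inr h2))⟩
    have t1 := h (x / R.w) (y / R.l) (fo R.w R.x x, fo R.l R.y y, z) hbd
    have t2 := h (x / R.w) ((y + 1) / R.l) (fo R.w R.x x, fo R.l R.y y, z) hbd
    unfold glue
    simp only [Set.mem_ofPred_eq]
    rw [← h1, t1, t2]
  · have e1 : hd ((2 : Fin 3), (x, y, z)) = (x, y, z) := rfl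
    have e2 : tl ((2 : Fin 3), (x, y, z)) = (x, y, z + 1) := by
      simp [tl, unitv]
    change (hd ((2 : Fin 3), (x, y, z))).1 / (R.w : ℤ) = (tl ((2 : Fin 3), (x, y, z))).1 / (R.w : ℤ) ∧
      (hd ((2 : Fin 3), (x, y, z))).2.1 / (R.l : ℤ) = (tl ((2 : Fin 3), (x, y, z))).2.1 / (R.l : ℤ)
    rw [e1, e2]
    exact ⟨rfl, rfl⟩

theorem sum_bU {ι : Type} (s : Finset ι) (t : ι → Finset Ed) (f : Ed → ℝ) (hf : ∀ e, 0 ≤ f e) :
    ∑ e ∈ s.biUnion t, f e ≤ ∑ i ∈ s, ∑ e ∈ t i, f e := by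
  classical
  induction s using Finset.induction_on with
  | empty => simp
  | insert i s hi ih =>
    rw [Finset.biUnion_insert, Finset.sum_insert hi]
    have h1 := Finset.sum_union_inter (s₁ := t i) (s₂ := s.biUnion t) (f := f)
    have h2 : 0 ≤ ∑ e ∈ t i ∩ s.biUnion t, f e := Finset.sum_nonneg fun e _ => hf e
    linarith

/-- The energy of the glued cut. -/
theorem glue_en {R : Rect} (hw : 1 ≤ R.w) (hl : 1 ≤ R.l) {Tr : Set V} {Sij : ℤ → ℤ → Set V}
    (h : ∀ i j, trc R Tr (Sij i j)) {a b : ℝ} (ha : 0 < a) (hab : a < b) (T : Finset Ed)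
    (z1 z2 : ℤ) (m n : ℕ) :
    en a b T (sq (R.w * m) (R.l * n)) z1 z2 (glue R Sij) ≤
      ∑ q ∈ Finset.range m ×ˢ Finset.range n,
        en a b (T.map (Et R q.1 q.2).symm.toEmbedding) R z1 z2 (Sij q.1 q.2) := by
  classical
  have hw' : (0 : ℤ) < R.w := by exact_mod_cast hw
  have hl' : (0 : ℤ) < R.l := by exact_mod_cast hl
  have h1 : ∀ q : ℕ × ℕ, en a b (T.map (Et R q.1 q.2).symm.toEmbedding) R z1 z2 (Sij q.1 q.2) =
      en a b T (Qt R q.1 q.2) z1 z2 (glue R Sij) := by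
    intro q
    rw [en_map (s := decide (Even (q.1 : ℤ))) (c := oc R.w R.x q.1) (t := decide (Even (q.2 : ℤ)))
      (d := oc R.l R.y q.2) (R := R) (fun v => tile_box R q.1 q.2 z1 z2 v)]
    exact (en_congr (fun v hv => glue_pre hw hl hv Sij) a b _).symm
  rw [Finset.sum_congr rfl (fun q _ => h1 q)]
  have h2 : cuts (sq (R.w * m) (R.l * n)) z1 z2 (glue R Sij) ⊆
      (Finset.range m ×ˢ Finset.range n).biUnion
        (fun q : ℕ × ℕ => cuts (Qt R q.1 q.2) z1 z2 (glue R Sij)) := by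
    intro e he
    unfold cuts at he
    rw [Finset.mem_filter, mem_eds, mem_box, mem_box] at he
    obtain ⟨⟨hh, ht⟩, hc⟩ := he
    obtain ⟨g1, g2⟩ := glue_cut hw hl h hc
    obtain ⟨a1, a2⟩ := div_bounds hw' (hd e).1
    obtain ⟨a3, a4⟩ := div_bounds hl' (hd e).2.1
    obtain ⟨b1, b2⟩ := div_bounds hw' (tl e).1
    obtain ⟨b3, b4⟩ := div_bounds hl' (tl e).2.1
    rw [← g1] at b1 b2
    rw [← g2] at b3 b4
    have i0 : 0 ≤ (hd e).1 / (R.w : ℤ) := Int.ediv_nonneg hh.1.1 hw'.le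
    have j0 : 0 ≤ (hd e).2.1 / (R.l : ℤ) := Int.ediv_nonneg hh.2.1.1 hl'.le
    have im : (hd e).1 / (R.w : ℤ) < m := by
      apply Int.ediv_lt_of_lt_mul hw'
      have := hh.1.2
      simp only [sq] at this
      push_cast at this
      linarith
    have jn : (hd e).2.1 / (R.l : ℤ) < n := by
      apply Int.ediv_lt_of_lt_mul hl'
      have := hh.2.1.2
      simp only [sq] at this
      push_cast at this
      linarith
    rw [Finset.mem_biUnion]
    refine ⟨(((hd e).1 / (R.w : ℤ)).toNat, ((hd e).2.1 / (R.l : ℤ)).toNat), ?_, ?_⟩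
    · rw [Finset.mem_product, Finset.mem_range, Finset.mem_range]
      simp only
      omega
    · unfold cuts
      rw [Finset.mem_filter, mem_eds, mem_box, mem_box]
      simp only [Qt, Int.toNat_of_nonneg i0, Int.toNat_of_nonneg j0]
      rw [add_mul, one_mul] at a2 a4 b2 b4
      exact ⟨⟨⟨⟨a1, a2⟩, ⟨a3, a4⟩, hh.2.2⟩, ⟨⟨b1, b2⟩, ⟨b3, b4⟩, ht.2.2⟩⟩, hc⟩
  have hcap : ∀ e, 0 ≤ cap a b T e := by
    intro e
    unfold cap
    split_ifs <;> linarith
  unfold en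
  calc ∑ e ∈ cuts (sq (R.w * m) (R.l * n)) z1 z2 (glue R Sij), cap a b T e ≤
      ∑ e ∈ (Finset.range m ×ˢ Finset.range n).biUnion
        (fun q : ℕ × ℕ => cuts (Qt R q.1 q.2) z1 z2 (glue R Sij)), cap a b T e :=
        Finset.sum_le_sum_of_subset_of_nonneg h2 (fun e _ _ => hcap e)
    _ ≤ _ := sum_bU _ _ _ (fun e => hcap e)

theorem flat_adm (B : Rect) {H : ℕ} (hH : 1 ≤ H) : adm B 0 (H : ℤ) {v : V | v.2.2 ≤ 0} := by
  intro v _
  simp only [Set.mem_ofPred_eq]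
  constructor
  · intro h; exact h
  · intro h
    have : (1 : ℤ) ≤ H := by exact_mod_cast hH
    omega

theorem box_sub {Q B : Rect} (h : Q.cols ⊆ B.cols) (z1 z2 : ℤ) : box Q z1 z2 ⊆ box B z1 z2 := by
  intro v hv
  rw [mem_box] at hv ⊢
  have := mem_cols.1 (h (mem_cols.2 ⟨hv.1, hv.2.1⟩ : (v.1, v.2.1) ∈ Q.cols))
  exact ⟨this.1, this.2, hv.2.2⟩

theorem eds_sub {Q B : Rect} (h : Q.cols ⊆ B.cols) (z1 z2 : ℤ) : eds Q z1 z2 ⊆ eds B z1 z2 := by
  intro e he
  rw [mem_eds] at he ⊢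
  exact ⟨box_sub h _ _ he.1, box_sub h _ _ he.2⟩

/-- the tile `(i, j)` of `w0 × l0` -/
def Q0 (w0 l0 : ℕ) (i j : ℕ) : Rect := ⟨(i : ℤ) * w0, (j : ℤ) * l0, w0, l0⟩

theorem Q0_cols {w0 l0 m n i j : ℕ} (hi : i < m) (hj : j < n) :
    (Q0 w0 l0 i j).cols ⊆ (sq (w0 * m) (l0 * n)).cols := by
  rintro ⟨x, y⟩ h
  rw [mem_cols] at h ⊢
  simp only [Q0, sq] at h ⊢
  have h1 : ((i : ℤ) + 1) * w0 ≤ m * w0 := by
    have : (i : ℤ) + 1 ≤ m := by exact_mod_cast hi
    exact mul_le_mul_of_nonneg_right this (by positivity)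
  have h2 : ((j : ℤ) + 1) * l0 ≤ n * l0 := by
    have : (j : ℤ) + 1 ≤ n := by exact_mod_cast hj
    exact mul_le_mul_of_nonneg_right this (by positivity)
  have h3 : (0 : ℤ) ≤ (i : ℤ) * w0 := by positivity
  have h4 : (0 : ℤ) ≤ (j : ℤ) * l0 := by positivity
  push_cast
  rw [add_mul, one_mul] at h1 h2
  constructor <;> constructor <;> linarith [h.1.1, h.1.2, h.2.1, h.2.2]

/-- The lower bound for the big rectangle. -/
theorem lower (hCUT : S_CUT) (hSUP : S_SUP) (hINV : S_INV) {p a b : ℝ} {H : ℕ} (hp0 : 0 < p)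
    (hp1 : p < 1) (ha : 0 < a) (hab : a < b) (hH : 1 ≤ H) {w0 l0 : ℕ} (hw0 : 1 ≤ w0)
    (hl0 : 1 ≤ l0) (m n : ℕ) :
    (m * n : ℝ) * ph p a b w0 l0 H ≤ ph p a b (w0 * m) (l0 * n) H := by
  classical
  set B := sq (w0 * m) (l0 * n) with hB
  have hH0 : (0 : ℤ) < H := by exact_mod_cast hH
  set I := Finset.range m ×ˢ Finset.range n with hI
  have hinj : Set.InjOn (fun q : ℕ × ℕ => Q0 w0 l0 q.1 q.2) (I : Set (ℕ × ℕ)) := by
    rintro ⟨i, j⟩ _ ⟨i', j'⟩ _ h
    simp only [Q0, Rect.mk.injEq] at h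
    have hw : ((w0 : ℕ) : ℤ) ≠ 0 := by positivity
    have hl : ((l0 : ℕ) : ℤ) ≠ 0 := by positivity
    have e1 := mul_right_cancel₀ hw h.1
    have e2 := mul_right_cancel₀ hl h.2.1
    have e3 : i = i' := by exact_mod_cast e1
    have e4 : j = j' := by exact_mod_cast e2
    rw [e3, e4]
  have hcols : ∀ q ∈ I, (Q0 w0 l0 q.1 q.2).cols ⊆ B.cols := by
    intro q hq
    rw [hI, Finset.mem_product, Finset.mem_range, Finset.mem_range] at hq
    exact Q0_cols hq.1 hq.2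
  have hdis : ∀ q ∈ I, ∀ q' ∈ I, Q0 w0 l0 q.1 q.2 ≠ Q0 w0 l0 q'.1 q'.2 →
      Disjoint (Q0 w0 l0 q.1 q.2).cols (Q0 w0 l0 q'.1 q'.2).cols := by
    intro q _ q' _ hne
    rw [Finset.disjoint_left]
    rintro ⟨x, y⟩ h1 h2
    apply hne
    rw [mem_cols] at h1 h2
    simp only [Q0] at h1 h2
    have hw : (0 : ℤ) < w0 := by exact_mod_cast hw0
    have hl : (0 : ℤ) < l0 := by exact_mod_cast hl0
    have e1 : x / (w0 : ℤ) = q.1 := div_eq_of hw h1.1.1 (by rw [add_mul, one_mul]; exact h1.1.2)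
    have e2 : x / (w0 : ℤ) = q'.1 := div_eq_of hw h2.1.1 (by rw [add_mul, one_mul]; exact h2.1.2)
    have e3 : y / (l0 : ℤ) = q.2 := div_eq_of hl h1.2.1 (by rw [add_mul, one_mul]; exact h1.2.2)
    have e4 : y / (l0 : ℤ) = q'.2 := div_eq_of hl h2.2.1 (by rw [add_mul, one_mul]; exact h2.2.2)
    have e5 : (q.1 : ℤ) = q'.1 := by rw [← e1, e2]
    have e6 : (q.2 : ℤ) = q'.2 := by rw [← e3, e4]
    unfold Q0
    rw [e5, e6]
  have hcutB := hCUT a b B 0 H (fun _ => True) _ ha hab hH0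
    ⟨_, flat_adm B hH, trivial, le_refl _⟩
  have key : ∀ T : Finset Ed, ∑ q ∈ I, flow a b (Q0 w0 l0 q.1 q.2) 0 (H : ℤ) T ≤
      flow a b B 0 (H : ℤ) T := by
    intro T
    obtain ⟨S, hS, -, hSe, -⟩ := hcutB.1 T
    have h1 := hSUP a b B 0 H (I.image (fun q : ℕ × ℕ => Q0 w0 l0 q.1 q.2)) T S ha hab
      (by
        intro Q hQ
        obtain ⟨q, hq, rfl⟩ := Finset.mem_image.1 hQ
        exact hcols q hq)
      (by
        intro Q hQ Q' hQ' hne
        obtain ⟨q, hq, rfl⟩ := Finset.mem_image.1 hQ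
        obtain ⟨q', hq', rfl⟩ := Finset.mem_image.1 hQ'
        exact hdis q hq q' hq' hne)
    rw [hSe, Finset.sum_image hinj] at h1
    have h2 : ∀ q ∈ I, flow a b (Q0 w0 l0 q.1 q.2) 0 (H : ℤ) T ≤
        en a b T (Q0 w0 l0 q.1 q.2) 0 (H : ℤ) S := by
      intro q hq
      have hcutQ := hCUT a b (Q0 w0 l0 q.1 q.2) 0 H (fun _ => True) _ ha hab hH0
        ⟨_, flat_adm _ hH, trivial, le_refl _⟩
      exact hcutQ.2.1 T S (fun v hv => hS v (hcols q hq hv)) trivial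
    have h3 := Finset.sum_le_sum h2
    have h4 : 0 ≤ a * ((cuts B 0 (H : ℤ) S \ (I.image (fun q : ℕ × ℕ =>
        Q0 w0 l0 q.1 q.2)).biUnion (fun Q => eds Q 0 (H : ℤ))).card : ℝ) := by positivity
    change _ ≤ flowC a b B 0 (H : ℤ) (fun _ => True) T
    linarith
  have h5 : ex p (eds B 0 (H : ℤ)) (fun T => ∑ q ∈ I, flow a b (Q0 w0 l0 q.1 q.2) 0 (H : ℤ) T) =
      (m * n : ℝ) * ph p a b w0 l0 H := by
    rw [ex_finsum]
    have h6 : ∀ q ∈ I, ex p (eds B 0 (H : ℤ)) (flow a b (Q0 w0 l0 q.1 q.2) 0 (H : ℤ)) =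
        ph p a b w0 l0 H := by
      intro q hq
      have := hINV p a b (Q0 w0 l0 q.1 q.2) 0 H (eds B 0 (H : ℤ)) hp0 hp1 ha hab hH
        (by rw [zero_add]; exact eds_sub (hcols q hq) _ _)
      rw [zero_add] at this
      exact this
    rw [Finset.sum_congr rfl h6, Finset.sum_const, hI, Finset.card_product, Finset.card_range,
      Finset.card_range, nsmul_eq_mul]
    push_cast
    ring
  rw [← h5]
  unfold ph
  exact ex_mono hp0.le hp1.le (fun T _ => key T)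

theorem map_inter (σ : Ed ≃ Ed) (T : Finset Ed) (G : Finset Ed) :
    (T ∩ G.map σ.toEmbedding).map σ.symm.toEmbedding = T.map σ.symm.toEmbedding ∩ G := by
  ext x
  rw [Finset.mem_inter, Finset.mem_map_equiv, Finset.mem_map_equiv, Finset.mem_inter,
    Finset.mem_map_equiv]
  simp

/-- The upper bound for the big rectangle. -/
theorem upper (hCUT : S_CUT) {p a b : ℝ} {R : Rect} {H : ℕ} {Tr : Set V} (hp0 : 0 < p)
    (hp1 : p < 1) (ha : 0 < a) (hab : a < b) (hw : 1 ≤ R.w) (hl : 1 ≤ R.l) (hH : 1 ≤ H)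
    (hTr : ∃ S0 : Set V, adm R 0 H S0 ∧ trc R Tr S0) (m n : ℕ) :
    ph p a b (R.w * m) (R.l * n) H ≤
      (m * n : ℝ) * ex p (eds R 0 (H : ℤ)) (flowC a b R 0 (H : ℤ) (trc R Tr)) := by
  classical
  have hH0 : (0 : ℤ) < H := by exact_mod_cast hH
  obtain ⟨S0, hS0, hS0t⟩ := hTr
  have hcut := hCUT a b R 0 H (trc R Tr) _ ha hab hH0 ⟨S0, hS0, hS0t, le_refl _⟩
  set B := sq (R.w * m) (R.l * n) with hB
  have hcutB := hCUT a b B 0 H (fun _ => True) _ ha hab hH0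
    ⟨_, flat_adm B hH, trivial, le_refl _⟩
  set I := Finset.range m ×ˢ Finset.range n with hI
  have key : ∀ T : Finset Ed, flow a b B 0 (H : ℤ) T ≤
      ∑ q ∈ I, flowC a b R 0 (H : ℤ) (trc R Tr) (T.map (Et R q.1 q.2).symm.toEmbedding) := by
    intro T
    choose S hS using fun T => hcut.1 T
    have h1 : adm B 0 (H : ℤ) (glue R (fun i j => S (T.map (Et R i j).symm.toEmbedding))) :=
      glue_adm hw hl (fun i j => (hS _).1) B
    have h2 := glue_en hw hl (Sij := fun i j => S (T.map (Et R i j).symm.toEmbedding))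
      (Tr := Tr) (fun i j => (hS _).2.1) ha hab T 0 H m n
    have h3 := hcutB.2.1 T _ h1 trivial
    refine h3.trans (h2.trans ?_)
    refine Finset.sum_le_sum fun q _ => ?_
    exact (hS _).2.2.1.le
  have h5 : ex p (eds B 0 (H : ℤ)) (fun T => ∑ q ∈ I, flowC a b R 0 (H : ℤ) (trc R Tr)
      (T.map (Et R q.1 q.2).symm.toEmbedding)) =
      (m * n : ℝ) * ex p (eds R 0 (H : ℤ)) (flowC a b R 0 (H : ℤ) (trc R Tr)) := by
    rw [ex_finsum]
    have h6 : ∀ q ∈ I, ex p (eds B 0 (H : ℤ)) (fun T => flowC a b R 0 (H : ℤ) (trc R Tr)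
        (T.map (Et R q.1 q.2).symm.toEmbedding)) =
        ex p (eds R 0 (H : ℤ)) (flowC a b R 0 (H : ℤ) (trc R Tr)) := by
      intro q hq
      rw [hI, Finset.mem_product, Finset.mem_range, Finset.mem_range] at hq
      have hQ : eds (Qt R q.1 q.2) 0 (H : ℤ) =
          (eds R 0 (H : ℤ)).map (Et R q.1 q.2).toEmbedding :=
        eds_map (fun v => tile_box R q.1 q.2 0 H v)
      have hsub : eds (Qt R q.1 q.2) 0 (H : ℤ) ⊆ eds B 0 (H : ℤ) :=
        eds_sub (Q0_cols (w0 := R.w) (l0 := R.l) hq.1 hq.2) _ _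
      rw [ex_restrict hsub, hQ, ex_map]
      · refine ex_congr fun s _ => ?_
        congr 1
        ext x
        rw [Finset.mem_map_equiv, Finset.mem_map_equiv]
        simp
      · intro T _
        rw [hQ, map_inter]
        exact hcut.2.2.2.1 _
    rw [Finset.sum_congr rfl h6, Finset.sum_const, hI, Finset.card_product, Finset.card_range,
      Finset.card_range, nsmul_eq_mul]
    push_cast
    ring
  rw [← h5]
  unfold ph
  exact ex_mono hp0.le hp1.le (fun T _ => key T)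

end RefAux

open RefAux in
theorem ref_thm (hCUT : S_CUT) (hSUP : S_SUP) (hINV : S_INV) : S_REF := by
  intro p a b R H Tr hp0 hp1 ha hab hw hl hH hTr
  have hpos : (0 : ℝ) < (R.w : ℝ) * R.l := by
    have h1 : (0 : ℝ) < R.w := by exact_mod_cast hw
    have h2 : (0 : ℝ) < R.l := by exact_mod_cast hl
    exact mul_pos h1 h2
  rw [← le_div_iff₀ hpos]
  unfold nu
  refine ciSup_le fun q => ?_
  have h1 := lower hCUT hSUP hINV (w0 := q.1 + 1) (l0 := q.2 + 1) hp0 hp1 ha hab hH (by omega)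
    (by omega) R.w R.l
  have h2 := upper hCUT (R := R) hp0 hp1 ha hab hw hl hH hTr (q.1 + 1) (q.2 + 1)
  rw [mul_comm R.w, mul_comm R.l] at h2
  have h3 := h1.trans h2
  have hpos2 : (0 : ℝ) < ((q.1 : ℝ) + 1) * ((q.2 : ℝ) + 1) := by positivity
  rw [div_le_div_iff₀ hpos2 hpos]
  push_cast at h3
  linarith

end Pool.SC
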